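import Pool.Agent.Helper68.LM2.Geo

/-!
# Project LM2, statement HI: high frequencies, both cases
-/

set_option autoImplicit false

open MeasureTheory Set Filter Topology
open scoped ENNReal RealInnerProductSpace

namespace Pool.Agent.Helper19.LM2

open Pool.Agent.Helper68.LM2 Pool.Agent.Helper68.LM

theorem hHI (hHIB : StHIB) (hHIS : StHIS) : StHI := by
  intro p R hp hR
  by_cases h2 : 2 ≤ p
  · obtain ⟨C, hC, h⟩ := hHIB p R h2 hR
    refine ⟨C, hC, fun ν L N m hν hL hD hm g hg hg0 => (h ν L N m hν hL hD hm g hg hg0).trans ?_⟩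
    gcongr
    have hm' : (m : ℝ) ≤ N := by exact_mod_cast hm
    have hx : (1 : ℝ) ≤ (N : ℝ) - m + 1 := by linarith
    have ha : al p = 0 := by
      unfold al
      exact max_eq_left (div_nonpos_of_nonpos_of_nonneg (by linarith) (by linarith))
    rw [ha, Real.rpow_zero, mul_one, Real.mul_rpow hL.le (by linarith)]
    gcongr
    exact Real.self_le_rpow_of_one_le hx hp.le
  · push Not at h2
    obtain ⟨C, hC, h⟩ := hHIS p R hp h2 hR
    refine ⟨C, hC, fun ν L N m hν hL hD hm g hg hg0 => (h ν L N m hν hL hD hm g hg hg0).trans ?_⟩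
    gcongr
    have hm' : (m : ℝ) ≤ N := by exact_mod_cast hm
    have hx : (1 : ℝ) ≤ (N : ℝ) - m + 1 := by linarith
    have hN : (0 : ℝ) < (N : ℝ) + 1 := by positivity
    have ha : al p * p = 2 - p := by
      unfold al
      rw [max_eq_right (div_nonneg (by linarith) (by linarith))]
      field_simp
    rw [Real.mul_rpow (by positivity) (by positivity), Real.mul_rpow hL.le (by linarith), ← Real.rpow_mul hN.le, ha]
    gcongr
    linarith

end Pool.Agent.Helper19.LM2
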