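import Pool.Agent.Helper68.LM2.St

/-!
# Project LM2, statement ORT: orthogonality and Bessel for dyadic martingale differences
-/

set_option autoImplicit false

open MeasureTheory Set Filter Topology
open scoped ENNReal RealInnerProductSpace

namespace Pool.Agent.Helper19.LM2

open Pool.Agent.Helper68.LM2 Pool.Agent.Helper68.LM

private theorem b1_add {f g : ℝ → ℝ} (hf : B1 f) (hg : B1 g) : B1 (fun y => f y + g y) := by
  obtain ⟨hf1, K, hK1, hK2⟩ := hf
  obtain ⟨hg1, L, hL1, hL2⟩ := hg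
  have hK0 : 0 ≤ K := le_trans (abs_nonneg _) (hK1 0)
  have hL0 : 0 ≤ L := le_trans (abs_nonneg _) (hL1 0)
  refine ⟨hf1.add hg1, K + L, fun x => ?_, fun x hx => ?_⟩
  · exact (abs_add_le _ _).trans (add_le_add (hK1 x) (hL1 x))
  · change f x + g x = 0
    rw [hK2 x (by linarith), hL2 x (by linarith), add_zero]

private theorem b1_smul {f : ℝ → ℝ} (c : ℝ) (hf : B1 f) : B1 (fun y => c * f y) := by
  obtain ⟨hf1, K, hK1, hK2⟩ := hf
  have hK0 : 0 ≤ K := le_trans (abs_nonneg _) (hK1 0)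
  refine ⟨hf1.const_mul c, |c| * K + K, fun x => ?_, fun x hx => ?_⟩
  · change |c * f x| ≤ |c| * K + K
    rw [abs_mul]
    have := mul_le_mul_of_nonneg_left (hK1 x) (abs_nonneg c)
    linarith
  · have : 0 ≤ |c| * K := by positivity
    change c * f x = 0
    rw [hK2 x (by linarith), mul_zero]

private theorem b1_mul {f g : ℝ → ℝ} (hf : B1 f) (hg : B1 g) : B1 (fun y => f y * g y) := by
  obtain ⟨hf1, K, hK1, hK2⟩ := hf
  obtain ⟨hg1, L, hL1, hL2⟩ := hg
  have hK0 : 0 ≤ K := le_trans (abs_nonneg _) (hK1 0)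
  have hL0 : 0 ≤ L := le_trans (abs_nonneg _) (hL1 0)
  refine ⟨hf1.mul hg1, K * L + K, fun x => ?_, fun x hx => ?_⟩
  · change |f x * g x| ≤ K * L + K
    rw [abs_mul]
    have := mul_le_mul (hK1 x) (hL1 x) (abs_nonneg _) hK0
    linarith
  · have : 0 ≤ K * L := by positivity
    change f x * g x = 0
    rw [hK2 x (by linarith), zero_mul]

private theorem b1_sub {f g : ℝ → ℝ} (hf : B1 f) (hg : B1 g) : B1 (fun y => f y - g y) := by
  have := b1_add hf (b1_smul (-1) hg)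
  simpa [sub_eq_add_neg] using this

private theorem b1_sum {ι : Type} (s : Finset ι) (F : ι → ℝ → ℝ) (hF : ∀ i ∈ s, B1 (F i)) :
    B1 (fun y => ∑ i ∈ s, F i y) := by
  classical
  induction s using Finset.induction_on with
  | empty => exact ⟨by simp, 0, by simp, by simp⟩
  | insert a s ha ih =>
    have h1 := b1_add (hF a (Finset.mem_insert_self _ _)) (ih (fun i hi => hF i (Finset.mem_insert_of_mem hi)))
    simpa [Finset.sum_insert ha] using h1

private theorem b1_int {f : ℝ → ℝ} (hf : B1 f) : Integrable f := by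
  obtain ⟨hf1, K, hK1, hK2⟩ := hf
  have hs : Function.support f ⊆ Icc (-K) K := by
    intro x hx
    by_contra hc
    apply hx
    apply hK2
    rw [mem_Icc, ← abs_le] at hc
    exact not_le.1 hc
  rw [← integrableOn_iff_integrable_of_support_subset hs]
  refine Measure.integrableOn_of_bounded (M := K) ?_ hf1.aestronglyMeasurable ?_
  · exact measure_Icc_lt_top.ne
  · exact Eventually.of_forall (fun x => by rw [Real.norm_eq_abs]; exact hK1 x)

private theorem enorm_sq {f : ℝ → ℝ} (hf : B1 f) : ∫⁻ b, ‖f b‖ₑ ^ 2 = ENNReal.ofReal (∫ b, f b * f b) := by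
  rw [ofReal_integral_eq_lintegral_ofReal (b1_int (b1_mul hf hf)) (Eventually.of_forall fun x => mul_self_nonneg _)]
  refine lintegral_congr fun x => ?_
  rw [Real.enorm_eq_ofReal_abs, ← ENNReal.ofReal_pow (abs_nonneg _), sq_abs, sq]

private theorem d1_b1 (hEA : StEA) {h : ℝ → ℝ} (hh : B1 h) (m : ℤ) : B1 (D1 m h) :=
  b1_sub (hEA.2.2.2.1 m h hh) (hEA.2.2.2.1 (m + 1) h hh)

private theorem e1_sub (hEA : StEA) {h w : ℝ → ℝ} (hh : B1 h) (hw : B1 w) (m : ℤ) (b : ℝ) :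
    E1 m (fun y => h y - w y) b = E1 m h b - E1 m w b := by
  have h1 := hEA.2.2.2.2.2.1 m h (fun y => (-1) * w y) b hh (b1_smul _ hw)
  have h2 := hEA.2.2.2.2.2.2.1 m w (-1) b
  have h3 : (fun y => h y + (-1) * w y) = fun y => h y - w y := by funext y; ring
  rw [h3, h2] at h1
  rw [h1]; ring

/-- `E1 m' (D1 m h) = 0` for `m < m'` and `E1 m' (D1 m h) = D1 m h` for `m' ≤ m`. -/
private theorem e1_d1 (hEA : StEA) {h : ℝ → ℝ} (hh : B1 h) (m m' : ℤ) (b : ℝ) :
    (m < m' → E1 m' (D1 m h) b = 0) ∧ (m' ≤ m → E1 m' (D1 m h) b = D1 m h b) := by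
  have hs : E1 m' (D1 m h) b = E1 m' (E1 m h) b - E1 m' (E1 (m + 1) h) b :=
    e1_sub hEA (hEA.2.2.2.1 m h hh) (hEA.2.2.2.1 (m + 1) h hh) m' b
  have tower := hEA.2.2.2.2.2.2.2.2.2.2.1
  constructor
  · intro hm
    rw [hs, (tower m m' h b hh hm.le).1, (tower (m + 1) m' h b hh (by omega)).1, sub_self]
  · intro hm
    rw [hs, (tower m' m h b hh hm).2, (tower m' (m + 1) h b hh (by omega)).2]
    rfl

private theorem sa (hEA : StEA) {h w : ℝ → ℝ} (hh : B1 h) (hw : B1 w) (m : ℤ) :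
    ∫ y, E1 m h y * w y = ∫ y, h y * E1 m w y := hEA.2.2.2.2.2.2.2.2.2.2.2.1 m h w hh hw

/-- `D1 m` is self-adjoint. -/
private theorem d1_sa (hEA : StEA) {h w : ℝ → ℝ} (hh : B1 h) (hw : B1 w) (m : ℤ) :
    ∫ y, D1 m h y * w y = ∫ y, h y * D1 m w y := by
  have hE := hEA.2.2.2.1
  have e1 : ∫ y, D1 m h y * w y = (∫ y, E1 m h y * w y) - ∫ y, E1 (m + 1) h y * w y := by
    rw [← integral_sub (b1_int (b1_mul (hE m h hh) hw)) (b1_int (b1_mul (hE (m + 1) h hh) hw))]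
    exact integral_congr_ae (Eventually.of_forall fun y => by simp only [D1]; ring)
  have e2 : ∫ y, h y * D1 m w y = (∫ y, h y * E1 m w y) - ∫ y, h y * E1 (m + 1) w y := by
    rw [← integral_sub (b1_int (b1_mul hh (hE m w hw))) (b1_int (b1_mul hh (hE (m + 1) w hw)))]
    exact integral_congr_ae (Eventually.of_forall fun y => by simp only [D1]; ring)
  rw [e1, e2, sa hEA hh hw m, sa hEA hh hw (m + 1)]

private theorem orth_lt (hEA : StEA) {h w : ℝ → ℝ} (hh : B1 h) (hw : B1 w) {m m' : ℤ} (hm : m < m') :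
    ∫ y, D1 m h y * D1 m' w y = 0 := by
  have hD := d1_b1 hEA hh m
  have e1 : ∫ y, D1 m h y * D1 m' w y = ∫ y, D1 m' (D1 m h) y * w y := (d1_sa hEA hD hw m').symm
  rw [e1]
  have : ∀ y, D1 m' (D1 m h) y = 0 := fun y => by
    have h1 := (e1_d1 hEA hh m m' y).1 hm
    have h2 := (e1_d1 hEA hh m (m' + 1) y).1 (by omega)
    change E1 m' (D1 m h) y - E1 (m' + 1) (D1 m h) y = 0
    rw [h1, h2, sub_self]
  simp [this]

private theorem orth (hEA : StEA) {h w : ℝ → ℝ} (hh : B1 h) (hw : B1 w) {m m' : ℤ} (hm : m ≠ m') :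
    ∫ y, D1 m h y * D1 m' w y = 0 := by
  rcases lt_or_gt_of_ne hm with h1 | h1
  · exact orth_lt hEA hh hw h1
  · rw [← orth_lt hEA hw hh h1]
    exact integral_congr_ae (Eventually.of_forall fun y => mul_comm _ _)

private theorem pyth (hEA : StEA) {ι : Type} (s : Finset ι) (μ : ι → ℤ) (hμ : Function.Injective μ)
    (f : ι → ℝ → ℝ) (hf : ∀ i, B1 (f i)) :
    ∫ y, (∑ i ∈ s, D1 (μ i) (f i) y) * (∑ i ∈ s, D1 (μ i) (f i) y) = ∑ i ∈ s, ∫ y, D1 (μ i) (f i) y * D1 (μ i) (f i) y := by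
  classical
  have e1 : ∀ y, (∑ i ∈ s, D1 (μ i) (f i) y) * (∑ i ∈ s, D1 (μ i) (f i) y) =
      ∑ i ∈ s, ∑ j ∈ s, D1 (μ i) (f i) y * D1 (μ j) (f j) y := fun y => Finset.sum_mul_sum _ _ _ _
  simp_rw [e1]
  have hint : ∀ i j, Integrable (fun y => D1 (μ i) (f i) y * D1 (μ j) (f j) y) := fun i j =>
    b1_int (b1_mul (d1_b1 hEA (hf i) _) (d1_b1 hEA (hf j) _))
  rw [integral_finsetSum _ (fun i _ => integrable_finsetSum _ (fun j _ => hint i j))]
  refine Finset.sum_congr rfl fun i hi => ?_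
  rw [integral_finsetSum _ (fun j _ => hint i j)]
  rw [Finset.sum_eq_single i]
  · intro j _ hj
    exact orth hEA (hf i) (hf j) (fun h => hj (hμ h).symm)
  · intro h; exact absurd hi h

private theorem bessel (hEA : StEA) {h : ℝ → ℝ} (hh : B1 h) (s : Finset ℤ) :
    ∑ m ∈ s, ∫ y, D1 m h y * D1 m h y ≤ ∫ y, h y * h y := by
  set S : ℝ → ℝ := fun y => ∑ m ∈ s, D1 m h y with hS
  have hD : ∀ m, B1 (D1 m h) := fun m => d1_b1 hEA hh m
  have hSb : B1 S := b1_sum s _ (fun m _ => hD m)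
  have e1 : ∫ y, S y * S y = ∑ m ∈ s, ∫ y, D1 m h y * D1 m h y :=
    pyth hEA s id Function.injective_id (fun _ => h) (fun _ => hh)
  have e3 : ∀ m, ∫ y, D1 m h y * h y = ∫ y, D1 m h y * D1 m h y := by
    intro m
    have h1 : ∀ y, D1 m (D1 m h) y = D1 m h y := fun y => by
      have h2 := (e1_d1 hEA hh m m y).2 le_rfl
      have h3 := (e1_d1 hEA hh m (m + 1) y).1 (by omega)
      change E1 m (D1 m h) y - E1 (m + 1) (D1 m h) y = D1 m h y
      rw [h2, h3, sub_zero]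
    have h4 := d1_sa hEA (hD m) hh m
    rw [← h4]
    exact integral_congr_ae (Eventually.of_forall fun y => by simp only [h1])
  have e2 : ∫ y, S y * h y = ∑ m ∈ s, ∫ y, D1 m h y * D1 m h y := by
    simp only [hS, Finset.sum_mul]
    rw [integral_finsetSum _ (fun m _ => b1_int (b1_mul (hD m) hh))]
    exact Finset.sum_congr rfl fun m _ => e3 m
  have hnn : 0 ≤ ∫ y, (h y - S y) * (h y - S y) := integral_nonneg fun y => mul_self_nonneg _
  have e4 : ∫ y, (h y - S y) * (h y - S y) = (∫ y, h y * h y) - 2 * (∫ y, S y * h y) + ∫ y, S y * S y := by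
    have i1 := b1_int (b1_mul hh hh)
    have i2 := (b1_int (b1_mul hSb hh)).const_mul 2
    have i3 := b1_int (b1_mul hSb hSb)
    rw [← integral_const_mul, ← integral_sub i1 i2]
    have i4 : Integrable (fun y => h y * h y - 2 * (S y * h y)) := i1.sub i2
    rw [← integral_add i4 i3]
    exact integral_congr_ae (Eventually.of_forall fun y => by
      change (h y - S y) * (h y - S y) = h y * h y - 2 * (S y * h y) + S y * S y
      ring)
  rw [e4, e2, e1] at hnn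
  linarith

private theorem line1 (hEA : StEA) {h : ℝ → ℝ} (hh : B1 h) :
    ∑' m : ℤ, ∫⁻ b, ‖D1 m h b‖ₑ ^ 2 ≤ ∫⁻ b, ‖h b‖ₑ ^ 2 := by
  rw [ENNReal.tsum_eq_iSup_sum]
  refine iSup_le fun s => ?_
  rw [enorm_sq hh]
  have : ∀ m ∈ s, ∫⁻ b, ‖D1 m h b‖ₑ ^ 2 = ENNReal.ofReal (∫ b, D1 m h b * D1 m h b) := fun m _ =>
    enorm_sq (d1_b1 hEA hh m)
  rw [Finset.sum_congr rfl this, ← ENNReal.ofReal_sum_of_nonneg (fun m _ => integral_nonneg fun y => mul_self_nonneg _)]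
  exact ENNReal.ofReal_le_ofReal (bessel hEA hh s)

private theorem line2 (hEA : StEA) (m : ℤ) (J : ℕ) (f : ℕ → ℝ → ℝ) (hf : ∀ j, B1 (f j)) :
    ∫⁻ b, ‖∑ j ∈ Finset.range J, D1 (m - (j : ℤ)) (f j) b‖ₑ ^ 2 =
      ∑ j ∈ Finset.range J, ∫⁻ b, ‖D1 (m - (j : ℤ)) (f j) b‖ₑ ^ 2 := by
  have hD : ∀ j : ℕ, B1 (D1 (m - (j : ℤ)) (f j)) := fun j => d1_b1 hEA (hf j) _
  rw [enorm_sq (b1_sum (Finset.range J) (fun j => D1 (m - (j : ℤ)) (f j)) (fun j _ => hD j)),
    pyth hEA (Finset.range J) (fun j : ℕ => m - (j : ℤ)) (fun a b hab => by simpa using hab) f hf,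
    ENNReal.ofReal_sum_of_nonneg (fun j _ => integral_nonneg fun y => mul_self_nonneg _)]
  exact Finset.sum_congr rfl fun j _ => (enorm_sq (hD j)).symm

private theorem lprod (F : ℝ × ℝ → ℝ) (hF : Measurable F) :
    ∫⁻ z, ‖F z‖ₑ ^ 2 = ∫⁻ a, ∫⁻ b, ‖F (a, b)‖ₑ ^ 2 := by
  rw [Measure.volume_eq_prod, lintegral_prod _ (by fun_prop)]

theorem hORT (hEA : StEA) (hEB : StEB) : StORT := by
  refine ⟨fun g hg => ?_, fun h hh => line1 hEA hh, fun m J X hX => ?_⟩
  · have hD : ∀ m, BR (D2 m g) := fun m => (hEB.2.2.2.1 m g hg).2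
    have hfib := (hEB.1 g hg).1
    have e1 : ∀ m : ℤ, ∫⁻ z, ‖D2 m g z‖ₑ ^ 2 = ∫⁻ a, ∫⁻ b, ‖D1 m (fun y => g (a, y)) b‖ₑ ^ 2 := fun m =>
      lprod (D2 m g) (hD m).1
    simp_rw [e1]
    rw [lprod g hg.1, ← lintegral_tsum]
    · exact lintegral_mono fun a => line1 hEA (hfib a)
    · intro m
      have hm : Measurable (fun z : ℝ × ℝ => ‖D2 m g z‖ₑ ^ 2) := by
        have := (hD m).1
        fun_prop
      exact hm.lintegral_prod_right'.aemeasurable
  · have hD : ∀ j : ℕ, BR (D2 (m - (j : ℤ)) (X j)) := fun j => (hEB.2.2.2.1 _ _ (hX j)).2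
    have e1 : ∀ j : ℕ, ∫⁻ z, ‖D2 (m - (j : ℤ)) (X j) z‖ₑ ^ 2 =
        ∫⁻ a, ∫⁻ b, ‖D1 (m - (j : ℤ)) (fun y => X j (a, y)) b‖ₑ ^ 2 := fun j => lprod _ (hD j).1
    simp_rw [e1]
    rw [lprod (fun z => ∑ j ∈ Finset.range J, D2 (m - (j : ℤ)) (X j) z)
      (Finset.measurable_fun_sum _ fun j _ => (hD j).1), ← lintegral_finsetSum']
    · refine lintegral_mono fun a => le_of_eq ?_
      exact line2 hEA m J (fun j y => X j (a, y)) (fun j => (hEB.1 (X j) (hX j)).1 a)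
    · intro j _
      have hm : Measurable (fun z : ℝ × ℝ => ‖D2 (m - (j : ℤ)) (X j) z‖ₑ ^ 2) := by
        have := (hD j).1
        fun_prop
      exact hm.lintegral_prod_right'.aemeasurable

end Pool.Agent.Helper19.LM2
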